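import Pool.Agent.H16.ORS.W
import Pool.Agent.H49.ORB.STR

/-!
# ORS, row STR: lengths and injectivity
-/

open Polynomial Finset
open Pool.ORB (Ad pre str Wo Enu Acc Tr inl al un LL AgO pair OM)

namespace Pool.ORS

theorem str_row : STRStmt := by
  have hpre : ∀ (i : ℕ) (b : Bool), (pre i b).length = if i = 0 then 1 else i + 2 :=
    Pool.ORB.Str49.pre_len
  refine ⟨?_, ?_, Pool.ORB.Str49.pair_inj, Pool.ORB.Str49.pair_len, ?_, ?_⟩
  · intro en e w b hw
    unfold str lev
    rw [List.length_append, Pool.ORB.Str49.pair_len, hpre, hpre, hw]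
    omega
  · exact Pool.ORB.str_row.2.2.2.1
  · intro en e
    constructor
    · intro h
      unfold lev nl
      rw [hpre, if_pos h, if_pos h]
      omega
    · intro h
      have hal : e.1 - 1 + 2 * e.2.length + 1 ≤ (al en (e.1 - 1)).eval e.2.length := by
        unfold al
        simp only [eval_add, eval_mul, eval_C, eval_X, eval_one, eval_ofNat]
        omega
      unfold lev nl
      rw [hpre, if_neg h, if_neg h]
      omega
  · intro en f i m K x a hx ha
    unfold lev levs nl
    simp only [Nat.add_eq_zero_iff, one_ne_zero, and_false, if_false, Nat.add_sub_cancel]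
    rw [hpre, Pool.ORB.Str49.pair_len, hx, ha]
    simp only [Nat.add_eq_zero_iff, one_ne_zero, and_false, if_false]

end Pool.ORS
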